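import Pool.Agent.Y25.K.SpA
import Pool.Agent.Y120.K.Defs
import Pool.Agent.Y508.J.Mob

set_option autoImplicit false

/-!
Project JK (helper120), job K-SP: analytic continuation around the elliptic point.
-/

open Filter Topology

namespace Pool.Agent.Y25.K

open Pool.Agent.TH21.MS (jj jj_an)
open Pool.Agent.Y120.J (si)
open Pool.Agent.Y120.K

theorem si_sq (s : Bool) : ((si s : ℤ) : ℂ) * ((si s : ℤ) : ℂ) = 1 := by
  cases s <;> simp [si]

theorem eval_sm (s : Bool) (g : ℕ) (Q : MvPolynomial (Fin 4) (An s g)) (x : ℝ) (v : Fin 4 → ℂ) :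
    MvPolynomial.eval₂ (ea s g x : An s g →+* ℂ) v Q =
      sm Q.support (fun m => (Q.coeff m).1 x) v := by
  rw [MvPolynomial.eval₂_eq']
  rfl

theorem Ys_pos (s : Bool) : 0 < Ys s := by
  cases s <;> simp [Ys]

theorem ry_im (s : Bool) (y : ℝ) : (ry s y).im = y := by
  unfold ry
  simp

theorem Js_nonneg (s : Bool) : 0 ≤ Js s := by
  cases s <;> simp [Js]

/-- the coordinate -/
noncomputable def xi (s : Bool) (g : ℕ) (z : ℂ) : ℂ := 1 / ((g : ℂ) + ((si s : ℤ) : ℂ) * jj z)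

/-- the four functions -/
noncomputable def WW (s : Bool) (g : ℕ) (z : ℂ) : Fin 4 → ℂ :=
  ![-Complex.log (xi s g z), z, deriv jj z, deriv (deriv jj) z]

theorem xi_ray {s : Bool} (hr : T_RAY s) (g : ℕ) {y : ℝ} (hy : Ys s ≤ y) :
    xi s g (ry s y) = ((1 / ((g : ℝ) + hh s y) : ℝ) : ℂ) := by
  unfold xi
  rw [hr.1 y hy, ← mul_assoc, si_sq, one_mul]
  push_cast
  rfl

theorem half {s : Bool} (hr : T_RAY s) (hc : T_CUR s) {g : ℕ} (hg : 1 ≤ g)
    (Q : MvPolynomial (Fin 4) (An s g))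
    (hQ : ∀ x ∈ Set.Ioo 0 (z1 s g),
      MvPolynomial.eval₂ (ea s g x : An s g →+* ℂ) (cur s g x) Q = 0)
    (γ : ℂ → ℂ) (M : (Fin 4 → ℂ) → Fin 4 → ℂ) (hγc : ContinuousAt γ (ry s (Ys s)))
    (hγe : γ (ry s (Ys s)) = ry s (Ys s))
    (hM : ∀ (z : ℂ) (l : ℂ), 0 < z.im → jj (γ z) = jj z ∧
      ![l, γ z, deriv jj (γ z), deriv (deriv jj) (γ z)] =
        M ![l, z, deriv jj z, deriv (deriv jj) z])
    (hMa : ∀ x ∈ Set.Ioo 0 (z1 s g), ∀ i, AnalyticAt ℝ (fun x => M (cur s g x) i) x) :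
    ∀ x ∈ Set.Ioo 0 (z1 s g),
      MvPolynomial.eval₂ (ea s g x : An s g →+* ℂ) (M (cur s g x)) Q = 0 := by
  set e := ry s (Ys s) with he
  have heim : 0 < e.im := by
    rw [he, ry_im]
    exact Ys_pos s
  have hg0 : (0 : ℝ) < g := by exact_mod_cast hg
  have hx1 : 0 < z1 s g := by
    unfold z1
    have := Js_nonneg s
    positivity
  have hjj : AnalyticAt ℂ jj e := jj_an e heim
  have hxie : xi s g e = (z1 s g : ℂ) := by
    rw [he, xi_ray hr g le_rfl, hr.2.1]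
    rfl
  have hden : (g : ℂ) + ((si s : ℤ) : ℂ) * jj e ≠ 0 := by
    intro h
    have h0 : xi s g e = 0 := by
      unfold xi
      rw [h]
      simp
    rw [hxie] at h0
    exact hx1.ne' (by exact_mod_cast h0)
  have hxi : AnalyticAt ℂ (xi s g) e := by
    unfold xi
    exact analyticAt_const.div (analyticAt_const.add (analyticAt_const.mul hjj)) hden
  have hW : ∀ i, AnalyticAt ℂ (fun z => WW s g z i) e := by
    intro i
    fin_cases i
    · show AnalyticAt ℂ (fun z => -Complex.log (xi s g z)) e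
      refine (hxi.clog ?_).neg
      rw [hxie]
      exact Complex.ofReal_mem_slitPlane.2 hx1
    · exact analyticAt_id
    · exact hjj.deriv
    · exact hjj.deriv.deriv
  have hyx : ∀ y, Ys s < y → xi s g (ry s y) = ((1 / ((g : ℝ) + hh s y) : ℝ) : ℂ) ∧
      WW s g (ry s y) = cur s g (1 / ((g : ℝ) + hh s y)) := by
    intro y hy
    obtain ⟨h1, h2⟩ := (hc g hg).2 y hy
    refine ⟨xi_ray hr g hy.le, ?_⟩
    unfold WW cur
    rw [h2, xi_ray hr g hy.le, ← Complex.ofReal_log h1.1.le, ← Complex.ofReal_neg, ← Real.log_inv,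
      inv_eq_one_div]
  have hry : Tendsto (ry s) (𝓝[>] Ys s) (𝓝[≠] e) := by
    apply tendsto_nhdsWithin_of_tendsto_nhds_of_eventually_within
    · have h1 : Continuous (ry s) := by
        unfold ry
        fun_prop
      exact (h1.tendsto _).mono_left nhdsWithin_le_nhds
    · filter_upwards [self_mem_nhdsWithin] with y hy h
      have h1 : (ry s y).im = e.im := by rw [h]
      rw [ry_im, he, ry_im] at h1
      exact (ne_of_gt hy) h1
  have hfreq : ∃ᶠ z in 𝓝[≠] e, ∃ x : ℝ, xi s g z = x ∧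
      sm Q.support (fun m => (Q.coeff m).1 x) (WW s g z) = 0 := by
    refine hry.frequently ?_
    apply Eventually.frequently
    filter_upwards [self_mem_nhdsWithin] with y hy
    obtain ⟨h1, h2⟩ := hyx y hy
    refine ⟨_, h1, ?_⟩
    rw [h2, ← eval_sm]
    exact hQ _ ((hc g hg).2 y hy).1
  have hcore := core Q.support (fun m => (Q.coeff m).1)
    (fun m => (Q.coeff m).2 _ (Set.right_mem_Icc.2 hx1.le)) hxi hxie hW hfreq
  have hγt : Tendsto γ (𝓝 e) (𝓝 e) := by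
    have h1 := hγc.tendsto
    rwa [hγe] at h1
  have h5 := hγt.eventually hcore
  have h6 := (hry.mono_right nhdsWithin_le_nhds).eventually h5
  obtain ⟨u, hu, hsub⟩ := mem_nhdsGT_iff_exists_Ioo_subset.1 h6
  have h7 : ∀ y ∈ Set.Ioo (Ys s) u, MvPolynomial.eval₂
      (ea s g (1 / ((g : ℝ) + hh s y)) : An s g →+* ℂ)
      (M (cur s g (1 / ((g : ℝ) + hh s y)))) Q = 0 := by
    intro y hy
    obtain ⟨h1, h2⟩ := hyx y hy.1
    have hyim : 0 < (ry s y).im := by
      rw [ry_im]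
      exact (Ys_pos s).trans hy.1
    obtain ⟨hj, hMz⟩ := hM (ry s y) (-Complex.log (xi s g (ry s y))) hyim
    have hxiγ : xi s g (γ (ry s y)) = xi s g (ry s y) := by
      unfold xi
      rw [hj]
    have h8 := hsub hy _ (hxiγ.trans h1)
    have h9 : WW s g (γ (ry s y)) = M (cur s g (1 / ((g : ℝ) + hh s y))) := by
      rw [← h2]
      unfold WW
      rw [hxiγ]
      exact hMz
    rw [h9] at h8
    rw [eval_sm]
    exact h8
  have hu' : Ys s < u := hu
  set y0 := (Ys s + u) / 2 with hy0d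
  have hy0 : y0 ∈ Set.Ioo (Ys s) u := ⟨by linarith, by linarith⟩
  obtain ⟨hx0, hYx0⟩ := (hc g hg).2 y0 hy0.1
  set x0 := 1 / ((g : ℝ) + hh s y0) with hx0d
  have hcont : ContinuousAt (Yx s g) x0 := ((hc g hg).1 x0 hx0).2.2.continuousAt
  have h10 : ∀ᶠ x in 𝓝 x0, MvPolynomial.eval₂ (ea s g x : An s g →+* ℂ) (M (cur s g x)) Q = 0 := by
    have h11 : ∀ᶠ x in 𝓝 x0, Yx s g x ∈ Set.Ioo (Ys s) u :=
      hcont.tendsto (by
        rw [hYx0]
        exact Ioo_mem_nhds hy0.1 hy0.2)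
    filter_upwards [h11, Ioo_mem_nhds hx0.1 hx0.2] with x hx hx'
    have h12 := ((hc g hg).1 x hx').2.1
    have h13 := h7 _ hx
    have h14 : 1 / ((g : ℝ) + hh s (Yx s g x)) = x := by
      rw [h12, add_sub_cancel, one_div_one_div]
    rwa [h14] at h13
  have hG : AnalyticOnNhd ℝ (fun x => MvPolynomial.eval₂ (ea s g x : An s g →+* ℂ)
      (M (cur s g x)) Q) (Set.Ioo 0 (z1 s g)) := by
    intro x hx
    have h11 : (fun x => MvPolynomial.eval₂ (ea s g x : An s g →+* ℂ) (M (cur s g x)) Q) =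
        fun x => sm Q.support (fun m => (Q.coeff m).1 x) (M (cur s g x)) :=
      funext fun x => eval_sm s g Q x _
    rw [h11]
    unfold sm
    refine Finset.analyticAt_fun_sum _ fun m _ => ?_
    refine AnalyticAt.mul ((Q.coeff m).2 x ⟨hx.1.le, hx.2.le⟩) ?_
    exact Finset.analyticAt_fun_prod _ fun i _ => (hMa x hx i).pow _
  exact fun x hx => hG.eqOn_zero_of_preconnected_of_eventuallyEq_zero isPreconnected_Ioo hx0 h10 hx

/-! ## The curve is analytic -/

theorem cur_an {s : Bool} (hc : T_CUR s) {g : ℕ} (hg : 1 ≤ g) {x : ℝ}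
    (hx : x ∈ Set.Ioo 0 (z1 s g)) : ∀ i, AnalyticAt ℝ (fun x => cur s g x i) x := by
  obtain ⟨h1, _, h3⟩ := (hc g hg).1 x hx
  have hY : AnalyticAt ℝ (fun x => ((Yx s g x : ℝ) : ℂ)) x :=
    (Complex.ofRealCLM.analyticAt _).comp h3
  have hR : AnalyticAt ℝ (fun x => ry s (Yx s g x)) x := by
    unfold ry
    exact analyticAt_const.add (hY.mul analyticAt_const)
  have him : 0 < (ry s (Yx s g x)).im := by
    rw [ry_im]
    exact (Ys_pos s).trans h1
  have hj := jj_an _ him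
  intro i
  fin_cases i
  · show AnalyticAt ℝ (fun x => ((Real.log (1 / x) : ℝ) : ℂ)) x
    refine (Complex.ofRealCLM.analyticAt _).comp ?_
    refine AnalyticAt.log (analyticAt_const.div analyticAt_id hx.1.ne') ?_
    exact one_div_pos.2 hx.1
  · exact hR
  · show AnalyticAt ℝ (fun x => deriv jj (ry s (Yx s g x))) x
    exact AnalyticAt.comp (f := fun x => ry s (Yx s g x)) (x := x)
      (AnalyticAt.restrictScalars (𝕜 := ℝ) hj.deriv) hR
  · show AnalyticAt ℝ (fun x => deriv (deriv jj) (ry s (Yx s g x))) x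
    exact AnalyticAt.comp (f := fun x => ry s (Yx s g x)) (x := x)
      (AnalyticAt.restrictScalars (𝕜 := ℝ) hj.deriv.deriv) hR

theorem cur_im {s : Bool} (hc : T_CUR s) {g : ℕ} (hg : 1 ≤ g) {x : ℝ}
    (hx : x ∈ Set.Ioo 0 (z1 s g)) : 0 < (cur s g x 1).im := by
  obtain ⟨h1, _, _⟩ := (hc g hg).1 x hx
  show 0 < (ry s (Yx s g x)).im
  rw [ry_im]
  exact (Ys_pos s).trans h1

theorem mo_an {s : Bool} (hc : T_CUR s) {g : ℕ} (hg : 1 ≤ g) {x : ℝ}
    (hx : x ∈ Set.Ioo 0 (z1 s g)) (a : ℂ) : ∀ i, AnalyticAt ℝ (fun x => mo a (cur s g x) i) x := by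
  have h := cur_an hc hg hx
  have hne : cur s g x 1 ≠ 0 := by
    intro h0
    have := cur_im hc hg hx
    rw [h0] at this
    simp at this
  intro i
  fin_cases i
  · exact h 0
  · show AnalyticAt ℝ (fun x => a - 1 / cur s g x 1) x
    exact analyticAt_const.sub (analyticAt_const.div (h 1) hne)
  · show AnalyticAt ℝ (fun x => cur s g x 1 ^ 2 * cur s g x 2) x
    exact ((h 1).pow 2).mul (h 2)
  · show AnalyticAt ℝ (fun x => cur s g x 1 ^ 4 * cur s g x 3 +
      2 * cur s g x 1 ^ 3 * cur s g x 2) x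
    exact (((h 1).pow 4).mul (h 3)).add ((analyticAt_const.mul ((h 1).pow 3)).mul (h 2))

theorem mo'_an {s : Bool} (hc : T_CUR s) {g : ℕ} (hg : 1 ≤ g) {x : ℝ}
    (hx : x ∈ Set.Ioo 0 (z1 s g)) (a : ℂ) (ha : a.im = 0) :
    ∀ i, AnalyticAt ℝ (fun x => mo' a (cur s g x) i) x := by
  have h := cur_an hc hg hx
  have hne : a - cur s g x 1 ≠ 0 := by
    intro h0
    have h1 := cur_im hc hg hx
    have h2 : (a - cur s g x 1).im = 0 := by
      rw [h0]
      rfl
    rw [Complex.sub_im, ha] at h2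
    linarith
  have h1 : AnalyticAt ℝ (fun x => a - cur s g x 1) x := analyticAt_const.sub (h 1)
  intro i
  fin_cases i
  · exact h 0
  · show AnalyticAt ℝ (fun x => 1 / (a - cur s g x 1)) x
    exact analyticAt_const.div h1 hne
  · show AnalyticAt ℝ (fun x => (a - cur s g x 1) ^ 2 * cur s g x 2) x
    exact (h1.pow 2).mul (h 2)
  · show AnalyticAt ℝ (fun x => (a - cur s g x 1) ^ 4 * cur s g x 3 -
      2 * (a - cur s g x 1) ^ 3 * cur s g x 2) x
    exact ((h1.pow 4).mul (h 3)).sub ((analyticAt_const.mul (h1.pow 3)).mul (h 2))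

/-! ## The elliptic element -/

/-- the integer `a` -/
def ai (s : Bool) : ℤ := if s then 0 else 1

/-- the elliptic element -/
def G1 (s : Bool) : Matrix.SpecialLinearGroup (Fin 2) ℤ :=
  ⟨!![ai s, -1; 1, 0], by simp [Matrix.det_fin_two]⟩

/-- its inverse -/
def G2 (s : Bool) : Matrix.SpecialLinearGroup (Fin 2) ℤ :=
  ⟨!![0, 1; -1, ai s], by simp [Matrix.det_fin_two]⟩

theorem ai_am (s : Bool) : ((ai s : ℤ) : ℂ) = am s := by
  cases s <;> simp [ai, am]

theorem mob1 (s : Bool) (z l : ℂ) (hz : 0 < z.im) : jj (am s - 1 / z) = jj z ∧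
    ![l, am s - 1 / z, deriv jj (am s - 1 / z), deriv (deriv jj) (am s - 1 / z)] =
      mo (am s) ![l, z, deriv jj z, deriv (deriv jj) z] := by
  have hz0 : z ≠ 0 := by
    rintro rfl
    simp at hz
  obtain ⟨h1, h2, h3, h4, _⟩ := Pool.Agent.Y508.J.t_mob (G1 s) ⟨z, hz⟩
  have e00 : ((G1 s) 0 0 : ℤ) = ai s := rfl
  have e01 : ((G1 s) 0 1 : ℤ) = -1 := rfl
  have e10 : ((G1 s) 1 0 : ℤ) = 1 := rfl
  have e11 : ((G1 s) 1 1 : ℤ) = 0 := rfl
  have hcz : (((⟨z, hz⟩ : UpperHalfPlane)) : ℂ) = z := rfl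
  rw [e00, e01, e10, e11, hcz] at h4
  rw [e10, e11, hcz] at h2 h3
  rw [hcz] at h1
  have h5 : ((ai s : ℤ) : ℂ) * z + ((-1 : ℤ) : ℂ) = ai s * z - 1 := by
    push_cast
    ring
  have h6 : (((ai s : ℤ) : ℂ) * z + ((-1 : ℤ) : ℂ)) / (((1 : ℤ) : ℂ) * z + ((0 : ℤ) : ℂ)) =
      am s - 1 / z := by
    rw [h5, ai_am]
    push_cast
    rw [one_mul, add_zero, sub_div, mul_div_assoc, div_self hz0, mul_one]
  rw [h6] at h4
  rw [h4] at h1 h2 h3
  refine ⟨h1, ?_⟩
  rw [h2, h3]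
  unfold mo
  ext i
  fin_cases i
  · rfl
  · rfl
  · simp
  · simp

theorem mob2 (s : Bool) (z l : ℂ) (hz : 0 < z.im) : jj (1 / (am s - z)) = jj z ∧
    ![l, 1 / (am s - z), deriv jj (1 / (am s - z)), deriv (deriv jj) (1 / (am s - z))] =
      mo' (am s) ![l, z, deriv jj z, deriv (deriv jj) z] := by
  obtain ⟨h1, h2, h3, h4, _⟩ := Pool.Agent.Y508.J.t_mob (G2 s) ⟨z, hz⟩
  have e00 : ((G2 s) 0 0 : ℤ) = 0 := rfl
  have e01 : ((G2 s) 0 1 : ℤ) = 1 := rfl
  have e10 : ((G2 s) 1 0 : ℤ) = -1 := rfl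
  have e11 : ((G2 s) 1 1 : ℤ) = ai s := rfl
  have hcz : (((⟨z, hz⟩ : UpperHalfPlane)) : ℂ) = z := rfl
  rw [e00, e01, e10, e11, hcz] at h4
  rw [e10, e11, hcz] at h2 h3
  rw [hcz] at h1
  have h5 : ((-1 : ℤ) : ℂ) * z + ((ai s : ℤ) : ℂ) = am s - z := by
    rw [ai_am]
    push_cast
    ring
  have h6 : (((0 : ℤ) : ℂ) * z + ((1 : ℤ) : ℂ)) / (((-1 : ℤ) : ℂ) * z + ((ai s : ℤ) : ℂ)) =
      1 / (am s - z) := by
    rw [h5]
    push_cast
    rw [zero_mul, zero_add]
  rw [h6] at h4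
  rw [h4] at h1 h2 h3
  rw [h5] at h2 h3
  refine ⟨h1, ?_⟩
  rw [h2, h3]
  unfold mo'
  ext i
  fin_cases i
  · rfl
  · rfl
  · simp
  · simp
    ring

theorem ee_ne (s : Bool) : ry s (Ys s) ≠ 0 := by
  intro h
  have h1 : (ry s (Ys s)).im = 0 := by
    rw [h]
    rfl
  rw [ry_im] at h1
  exact (Ys_pos s).ne' h1

theorem am_im (s : Bool) : (am s).im = 0 := by
  cases s <;> simp [am]

/-- the elliptic point is a root of `z ^ 2 - a z + 1` -/
theorem ee_eq (s : Bool) : ry s (Ys s) ^ 2 = am s * ry s (Ys s) - 1 := by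
  cases s
  · have h3 : ((√3 : ℝ) : ℂ) ^ 2 = 3 := by
      rw [← Complex.ofReal_pow, Real.sq_sqrt (by norm_num)]
      norm_num
    simp only [ry, xs, Ys, am, Bool.false_eq_true, if_false]
    push_cast
    linear_combination (1 / 4 : ℂ) * Complex.I ^ 2 * h3 + (3 / 4 : ℂ) * Complex.I_sq
  · simp [ry, xs, Ys, am]

theorem ee1 (s : Bool) : am s - 1 / ry s (Ys s) = ry s (Ys s) := by
  have h := ee_ne s
  have h2 := ee_eq s
  field_simp
  linear_combination -h2

theorem ee2 (s : Bool) : 1 / (am s - ry s (Ys s)) = ry s (Ys s) := by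
  have h2 := ee_eq s
  have h3 : ry s (Ys s) * (am s - ry s (Ys s)) = 1 := by linear_combination -h2
  have h4 : am s - ry s (Ys s) ≠ 0 := by
    intro h
    rw [h, mul_zero] at h3
    exact zero_ne_one h3
  rw [div_eq_iff h4, h3]

/-- Job K-SP. -/
theorem t_sp (s : Bool) (hr : T_RAY s) (hc : T_CUR s) : T_SP s := by
  intro g hg Q hQ x hx
  have hne := ee_ne s
  refine ⟨half hr hc hg Q hQ (fun z => am s - 1 / z) (mo (am s)) ?_ (ee1 s) (mob1 s)
      (fun x hx => mo_an hc hg hx _) x hx,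
    half hr hc hg Q hQ (fun z => 1 / (am s - z)) (mo' (am s)) ?_ (ee2 s) (mob2 s)
      (fun x hx => mo'_an hc hg hx _ (am_im s)) x hx⟩
  · exact continuousAt_const.sub (continuousAt_const.div continuousAt_id hne)
  · refine continuousAt_const.div (continuousAt_const.sub continuousAt_id) ?_
    intro h
    have h2 := ee2 s
    rw [h] at h2
    simp at h2
    exact hne h2.symm

end Pool.Agent.Y25.K
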