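import Mathlib

set_option autoImplicit false

/-!
Project JK (helper120), job K-SP: complex extensions of real-analytic functions, and the identity
principle at the elliptic point.
-/

open Filter Topology

namespace Pool.Agent.Y25.K

theorem ext_an (f : ℝ → ℂ) (a : ℝ) (hf : AnalyticAt ℝ f a) :
    ∃ F : ℂ → ℂ, AnalyticAt ℂ F (a : ℂ) ∧ ∀ᶠ x : ℝ in 𝓝 a, F (x : ℂ) = f x := by
  obtain ⟨p, r, hp⟩ := hf
  have hr := hp.r_pos
  set q : FormalMultilinearSeries ℂ ℂ ℂ :=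
    FormalMultilinearSeries.ofScalars ℂ (fun n => p.coeff n) with hqdef
  have hq : ∀ n, ‖q n‖ = ‖p n‖ := by
    intro n
    rw [hqdef, FormalMultilinearSeries.ofScalars_norm, FormalMultilinearSeries.norm_apply_eq_norm_coef]
  have hrad : q.radius = p.radius := by
    simp only [FormalMultilinearSeries.radius, hq]
  have hqr : 0 < q.radius := by
    rw [hrad]
    exact hr.trans_le hp.r_le
  refine ⟨fun z => q.sum (z - a), ⟨q, ?_⟩, ?_⟩
  · have h := q.hasFPowerSeriesOnBall hqr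
    have h2 := (h.comp_sub (a : ℂ)).hasFPowerSeriesAt
    simpa using h2
  · filter_upwards [Metric.eball_mem_nhds a hr] with x hx
    have h1 := hp.hasSum_sub hx
    have h2 : ∀ n, p n (fun _ => x - a) = q n (fun _ => (x : ℂ) - a) := by
      intro n
      rw [hqdef, FormalMultilinearSeries.ofScalars_apply_eq,
        FormalMultilinearSeries.apply_eq_pow_smul_coeff]
      rw [Complex.real_smul, smul_eq_mul, mul_comm]
      push_cast
      rfl
    show (∑' n, q n fun _ => (x : ℂ) - a) = f x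
    rw [← h1.tsum_eq]
    exact tsum_congr fun n => (h2 n).symm

/-- the sum -/
noncomputable def sm (S : Finset (Fin 4 →₀ ℕ)) (c : (Fin 4 →₀ ℕ) → ℂ) (v : Fin 4 → ℂ) : ℂ :=
  ∑ m ∈ S, c m * ∏ i, v i ^ m i

theorem core (S : Finset (Fin 4 →₀ ℕ)) (c : (Fin 4 →₀ ℕ) → ℝ → ℂ) {x1 : ℝ}
    (hc : ∀ m, AnalyticAt ℝ (c m) x1) {e : ℂ} {ξ : ℂ → ℂ} (hξ : AnalyticAt ℂ ξ e)
    (hξe : ξ e = x1) {W : ℂ → Fin 4 → ℂ} (hW : ∀ i, AnalyticAt ℂ (fun z => W z i) e)
    (hz : ∃ᶠ z in 𝓝[≠] e, ∃ x : ℝ, ξ z = x ∧ sm S (fun m => c m x) (W z) = 0) :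
    ∀ᶠ z in 𝓝 e, ∀ x : ℝ, ξ z = x → sm S (fun m => c m x) (W z) = 0 := by
  choose C hC hCe using fun m => ext_an (c m) x1 (hc m)
  have h1 : ∀ᶠ x : ℝ in 𝓝 x1, ∀ m ∈ S, C m (x : ℂ) = c m x := by
    rw [Filter.eventually_all_finset]
    exact fun m _ => hCe m
  obtain ⟨δ, hδ, hball⟩ := Metric.eventually_nhds_iff.1 h1
  have h2 : ∀ᶠ z in 𝓝 e, ∀ x : ℝ, ξ z = x →
      sm S (fun m => c m x) (W z) = sm S (fun m => C m (ξ z)) (W z) := by
    have h3 : ∀ᶠ z in 𝓝 e, dist (ξ z) (ξ e) < δ :=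
      Metric.tendsto_nhds.1 hξ.continuousAt δ hδ
    filter_upwards [h3] with z hz3 x hx
    have h4 : dist x x1 < δ := by
      rw [hx, hξe, Complex.dist_eq, ← Complex.ofReal_sub, Complex.norm_real] at hz3
      rwa [Real.dist_eq, ← Real.norm_eq_abs]
    have h5 := hball h4
    unfold sm
    refine Finset.sum_congr rfl fun m hm => ?_
    simp only [hx, h5 m hm]
  have hΦ : AnalyticAt ℂ (fun z => sm S (fun m => C m (ξ z)) (W z)) e := by
    unfold sm
    refine Finset.analyticAt_fun_sum _ fun m _ => ?_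
    refine AnalyticAt.mul ?_ ?_
    · have h3 := hC m
      rw [← hξe] at h3
      exact h3.comp hξ
    · exact Finset.analyticAt_fun_prod _ fun i _ => (hW i).pow _
  have h6 : ∃ᶠ z in 𝓝[≠] e, sm S (fun m => C m (ξ z)) (W z) = 0 := by
    refine (hz.and_eventually (h2.filter_mono nhdsWithin_le_nhds)).mono ?_
    rintro z ⟨⟨x, hx, h0⟩, h7⟩
    rw [← h7 x hx]
    exact h0
  have h7 := hΦ.frequently_zero_iff_eventually_zero.1 h6
  filter_upwards [h2, h7] with z h8 h9 x hx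
  rw [h8 x hx]
  exact h9

end Pool.Agent.Y25.K
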